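import Pool.Agent.K1H25.BT.Main

set_option autoImplicit false

/-!
# The Bridge Theorem for actions of monoids on compact abelian groups

`S` is a monoid acting on the left on the compact Hausdorff abelian group `K` (written
multiplicatively) by continuous endomorphisms `γ(s)`.  The definitions are in
`Pool/Agent/K1H25/BT/Defs.lean`:

* `topRate γ 𝒰 F = log N(𝒰_F) / |F|`, where `𝒰_F = ⋁_{s ∈ F} γ(s)⁻¹(𝒰)`;
* `algRate γ X F = log |T_F(X)| / |F|`, where `T_F(X)` is the set of all characters
  `∏_{s ∈ F} χ_s ∘ γ(s)` with `χ_s ∈ X`.

The topological entropy is the supremum over the finite open covers `𝒰` of the limit of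
`topRate γ 𝒰 F_i` along a left Følner net `F_i`, the algebraic entropy of the dual (right) action is
the supremum over the finite non-empty sets `X` of characters of the limit of `algRate γ X F_i`.  We
prove the equality for all monoids `S` and along arbitrary nets (filters) of non-empty finite sets,
for the upper and for the lower limits.  For a left Følner net of a cancellative left amenable monoid
the limits exist, so both are the limit.

Proof.  (1) `|T_F(X)| ≤ N(𝒰_F) e^{η|F|}` for a suitable `𝒰`: on a member of `𝒰_F` with base point `b`
every `ψ = ∏ χ_s ∘ γ(s)` in `T_F(X)` is `ψ(b) ∏_{s ∈ F} (1 + δ_s)` with small `δ_s`; truncating the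
expansion of the product and gluing with a partition of unity one approximates `ψ` uniformly, up to
an error smaller than `|X|^{-|F|}`, by functions in a space of dimension `N(𝒰_F) e^{η|F|}`; the
characters are orthonormal, so the approximations are linearly independent.
(2) Conversely let `k = ∑_{χ ∈ X} χ`, `f = ∏_{s ∈ F} k^m ∘ γ(s)`.  As `f` is a sum of characters in
`T_F(X^m)` with nonnegative coefficients, `∫ |f|² ≥ f(1)² / |T_F(X^m)|`.  Off the set of those `x`
for which `γ(s) x` is close to `1` for most `s ∈ F` the function `|f|` is much smaller than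
`e^{-c|F|} f(1)`, where `c` is as large as one likes for large `m`.  So this set has measure at least
about `1 / |T_F(X^m)|`, and then so has the Bowen neighbourhood `{x : γ(s) x ∈ V for all s ∈ F}`, up
to a factor `e^{η|F|}`.
-/

open Filter Topology Pool.Agent.K1H25.BT

namespace Pool.Agent.Results.MP_699bc8_an.BridgeTheorem

universe u v w

theorem result {S : Type u} [Monoid S] {K : Type v} [CommGroup K] [TopologicalSpace K]
    [IsTopologicalGroup K] [CompactSpace K] [T2Space K] (γ : EndoAction S K)
    {I : Type w} (l : Filter I) [l.NeBot] (F : I → Finset S) (hF : ∀ i, (F i).Nonempty) :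
    ((⨆ 𝒰 : {𝒰 : Set (Set K) // IsFinOpenCover 𝒰},
        limsup (fun i => (topRate γ 𝒰.1 (F i) : EReal)) l) =
      ⨆ X : {X : Finset (PontryaginDual K) // X.Nonempty},
        limsup (fun i => (algRate γ X.1 (F i) : EReal)) l) ∧
    ((⨆ 𝒰 : {𝒰 : Set (Set K) // IsFinOpenCover 𝒰},
        liminf (fun i => (topRate γ 𝒰.1 (F i) : EReal)) l) =
      ⨆ X : {X : Finset (PontryaginDual K) // X.Nonempty},
        liminf (fun i => (algRate γ X.1 (F i) : EReal)) l) :=
  ⟨limsup_eq l F hF γ, liminf_eq l F hF γ⟩

end Pool.Agent.Results.MP_699bc8_an.BridgeTheorem
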